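import Pool.Agent.Lib.MP_c95b3b_ag_PN.Sub
import Pool.Agent.Lib.MP_c95b3b_ag_PC.Defs

/-! MP_c95b3b_ag, project (P), block N: characters with different keys are linearly independent
over the algebraic numbers on the product of the curves. -/

set_option autoImplicit false

open MvPolynomial

namespace Pool.Agent.PN

theorem ne_zero_of_keys {m : ℕ} {ι : Type} [Fintype ι] [DecidableEq ι] (C : ι → PC.Crv m)
    (j : ι → Fin m) (hj : ∀ i, j i ∈ (C i).good) (x y : ι → ℂ) (hx : AlgebraicIndependent ℚ x)
    (h : ∀ i, aeval ![x i, y i] (C i).f = 0) (s : Finset ι) :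
    ∀ (T : Finset (ι → ℤ × ℤ)) (q : (ι → ℤ × ℤ) → ℂ), (∀ t ∈ T, IsAlgebraic ℚ (q t)) →
      (∀ t ∈ T, ∀ t' ∈ T, (∀ i ∈ s, PC.pr ((C i).ray (j i)) (t i) =
        PC.pr ((C i).ray (j i)) (t' i)) → t = t') → (∃ t ∈ T, q t ≠ 0) →
      ∑ t ∈ T, q t * ∏ i ∈ s, (x i ^ (t i).1 * y i ^ (t i).2) ≠ 0 := by
  induction s using Finset.induction_on with
  | empty =>
    intro T q _ hT hq
    obtain ⟨t, ht, hqt⟩ := hq
    have hTt : T = {t} := by
      ext t'
      constructor
      · intro ht'
        exact Finset.mem_singleton.2 (hT t' ht' t ht (by simp))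
      · intro ht'
        rw [Finset.mem_singleton.1 ht']
        exact ht
    rw [hTt]
    simpa using hqt
  | insert k s hk ih =>
    intro T q hqa hT hq hsum
    obtain ⟨E, hE, hxE, hxT, hEalg⟩ := exists_subfield x hx s
    -- the coordinates with index in `s` are in `E`
    have hyE : ∀ i ∈ s, y i ∈ E := by
      intro i hi
      apply hEalg
      have hxi : Transcendental ℤ (x i) := by
        have h1 : Transcendental ℚ (x i) := hx.transcendental i
        intro h2
        exact h1 (h2.extendScalars (algebraMap ℤ ℚ).injective_int)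
      exact isAlgebraic_root (C i).irr.ne_zero hxi (hxE i hi) (h i)
    have hqE : ∀ t ∈ T, q t ∈ E := by
      intro t ht
      apply hEalg
      exact (hqa t ht).tower_top E
    have hprodE : ∀ t : ι → ℤ × ℤ, ∏ i ∈ s, (x i ^ (t i).1 * y i ^ (t i).2) ∈ E := by
      intro t
      apply prod_mem
      intro i hi
      exact mul_mem (zpow_mem (hxE i hi) _) (zpow_mem (hyE i hi) _)
    -- the maximum
    obtain ⟨t₀, ht₀, hmax⟩ := Finset.exists_max_image (T.filter fun t => q t ≠ 0)
      (fun t => PC.pr ((C k).ray (j k)) (t k)) (by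
        obtain ⟨t, ht, hqt⟩ := hq
        exact ⟨t, Finset.mem_filter.2 ⟨ht, hqt⟩⟩)
    rw [Finset.mem_filter] at ht₀
    obtain ⟨z₁, z₂, hz₁, hz₂, ha₁, ha₂, hz⟩ := (C k).ind E (x k) (y k) hE (hxT k hk) (h k) (j k)
      (hj k)
    have hfib : ∀ (g : (ι → ℤ × ℤ) → ℂ) (u : ℤ × ℤ → ℂ) (p : ℤ × ℤ → Prop) [DecidablePred p],
        ∑ a ∈ (T.image fun t => t k) with p a, (∑ t ∈ T with t k = a, g t) * u a =
          ∑ t ∈ T with p (t k), g t * u (t k) := by
      intro g u p _
      have h1 : ∑ t ∈ T with p (t k), g t * u (t k) =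
          ∑ a ∈ (T.image fun t => t k) with p a,
            ∑ t ∈ (T.filter fun t => p (t k)) with t k = a, g t * u (t k) := by
        symm
        apply Finset.sum_fiberwise_of_maps_to
        intro t ht
        rw [Finset.mem_filter] at ht
        exact Finset.mem_filter.2 ⟨Finset.mem_image_of_mem _ ht.1, ht.2⟩
      rw [h1]
      apply Finset.sum_congr rfl
      intro a ha
      rw [Finset.mem_filter] at ha
      rw [Finset.sum_mul, Finset.filter_filter]
      apply Finset.sum_congr
      · apply Finset.filter_congr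
        intro t _
        constructor
        · intro h2
          exact ⟨by rw [h2]; exact ha.2, h2⟩
        · intro h2
          exact h2.2
      · intro t ht
        rw [Finset.mem_filter] at ht
        rw [ht.2.2]
    have hfib' : ∀ (g : (ι → ℤ × ℤ) → ℂ) (u : ℤ × ℤ → ℂ),
        ∑ a ∈ (T.image fun t => t k), (∑ t ∈ T with t k = a, g t) * u a =
          ∑ t ∈ T, g t * u (t k) := by
      intro g u
      have := hfib g u (fun _ => True)
      simpa using this
    have hkey := hz (T.image fun t => t k)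
      (fun a => ∑ t ∈ T with t k = a, q t * ∏ i ∈ s, (x i ^ (t i).1 * y i ^ (t i).2))
      (PC.pr ((C k).ray (j k)) (t₀ k)) (by
        intro a _
        apply sum_mem
        intro t ht
        exact mul_mem (hqE t (Finset.mem_filter.1 ht).1) (hprodE t)) (by
        intro a _ hca
        obtain ⟨t, ht, hne⟩ := Finset.exists_ne_zero_of_sum_ne_zero hca
        rw [Finset.mem_filter] at ht
        have hqt : q t ≠ 0 := left_ne_zero_of_mul hne
        have := hmax t (Finset.mem_filter.2 ⟨ht.1, hqt⟩)
        rw [← ht.2]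
        exact this) (by
        rw [hfib' (fun t => q t * ∏ i ∈ s, (x i ^ (t i).1 * y i ^ (t i).2))
          (fun a => x k ^ a.1 * y k ^ a.2)]
        rw [← hsum]
        apply Finset.sum_congr rfl
        intro t _
        rw [Finset.prod_insert hk]
        ring)
    rw [hfib (fun t => q t * ∏ i ∈ s, (x i ^ (t i).1 * y i ^ (t i).2))
      (fun a => z₁ ^ a.1 * z₂ ^ a.2)
      (fun a => PC.pr ((C k).ray (j k)) a = PC.pr ((C k).ray (j k)) (t₀ k))] at hkey
    refine ih (T.filter fun t => PC.pr ((C k).ray (j k)) (t k) = PC.pr ((C k).ray (j k)) (t₀ k))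
      (fun t => q t * (z₁ ^ (t k).1 * z₂ ^ (t k).2)) ?_ ?_ ?_ ?_
    · intro t ht
      rw [Finset.mem_filter] at ht
      have hzp : ∀ (z : ℂ) (n : ℤ), IsAlgebraic ℚ z → IsAlgebraic ℚ (z ^ n) := by
        intro z n hz
        cases n with
        | ofNat n => simpa using hz.pow n
        | negSucc n =>
          rw [zpow_negSucc]
          exact (hz.pow (n + 1)).inv
      exact (hqa t ht.1).mul ((hzp _ _ ha₁).mul (hzp _ _ ha₂))
    · intro t ht t' ht' htt
      rw [Finset.mem_filter] at ht ht'
      apply hT t ht.1 t' ht'.1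
      intro i hi
      rcases Finset.mem_insert.1 hi with rfl | hi
      · rw [ht.2, ht'.2]
      · exact htt i hi
    · exact ⟨t₀, Finset.mem_filter.2 ⟨ht₀.1, rfl⟩,
        mul_ne_zero ht₀.2 (mul_ne_zero (zpow_ne_zero _ hz₁) (zpow_ne_zero _ hz₂))⟩
    · rw [← hkey]
      apply Finset.sum_congr rfl
      intro t _
      ring

end Pool.Agent.PN
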