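import Pool.Agent.Lib.MP_c95b3b_ag_PN.All
import Pool.Agent.Lib.MP_c95b3b_ag_PN.Keys
import Pool.Agent.Lib.MP_c95b3b_ag_PC.Defs

/-! MP_c95b3b_ag, project (P), block N: the norm polynomial. -/

set_option autoImplicit false

open MvPolynomial Pool.Agent.AL

namespace Pool.Agent.PN

/-- the polynomial `∏ x i ^ D i * y i ^ D i * ∑ q t * ∏ x i ^ (t i).1 * y i ^ (t i).2` -/
noncomputable def shiftP {ι : Type} [Fintype ι] (D : ι → ℕ) (T : Finset (ι → ℤ × ℤ))
    (q : (ι → ℤ × ℤ) → ℤ) : MvPolynomial (ι ⊕ ι) ℤ :=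
  ∑ t ∈ T, C (q t) * ∏ i, (X (Sum.inl i) ^ ((t i).1 + D i).toNat *
    X (Sum.inr i) ^ ((t i).2 + D i).toNat)

private lemma deg_pow {σ : Type} [DecidableEq σ] (v w : σ) (n : ℕ) :
    (X w ^ n : MvPolynomial σ ℤ).degreeOf v ≤ if v = w then n else 0 := by
  refine (degreeOf_pow_le _ _ _).trans ?_
  rw [degreeOf_X]
  split
  · rw [mul_one]
  · rw [mul_zero]

private lemma toNat_le {a : ℤ} {d : ℕ} (h : |a| ≤ d) : (a + d).toNat ≤ 2 * d := by
  have := abs_le.1 h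
  omega

theorem shiftP_degreeOf {ι : Type} [Fintype ι] (D : ι → ℕ) (T : Finset (ι → ℤ × ℤ))
    (q : (ι → ℤ × ℤ) → ℤ) (h : ∀ t ∈ T, ∀ i, |(t i).1| ≤ D i ∧ |(t i).2| ≤ D i) (i : ι) :
    (shiftP D T q).degreeOf (Sum.inl i) ≤ 2 * D i ∧
      (shiftP D T q).degreeOf (Sum.inr i) ≤ 2 * D i := by
  classical
  constructor
  · refine (degreeOf_sum_le _ _ _).trans (Finset.sup_le fun t ht => ?_)
    refine (degreeOf_C_mul_le _ _ _).trans ((degreeOf_prod_le _ _ _).trans ?_)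
    refine (Finset.sum_le_sum (g := fun k => if k = i then 2 * D i else 0) fun k _ => ?_).trans ?_
    · refine (degreeOf_mul_le _ _ _).trans ((add_le_add (deg_pow _ _ _) (deg_pow _ _ _)).trans ?_)
      by_cases hk : k = i
      · subst hk
        simpa using toNat_le (h t ht k).1
      · have hk' : i ≠ k := fun h => hk h.symm
        simp [hk, hk']
    · simp
  · refine (degreeOf_sum_le _ _ _).trans (Finset.sup_le fun t ht => ?_)
    refine (degreeOf_C_mul_le _ _ _).trans ((degreeOf_prod_le _ _ _).trans ?_)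
    refine (Finset.sum_le_sum (g := fun k => if k = i then 2 * D i else 0) fun k _ => ?_).trans ?_
    · refine (degreeOf_mul_le _ _ _).trans ((add_le_add (deg_pow _ _ _) (deg_pow _ _ _)).trans ?_)
      by_cases hk : k = i
      · subst hk
        simpa using toNat_le (h t ht k).2
      · have hk' : i ≠ k := fun h => hk h.symm
        simp [hk, hk']
    · simp

private lemma l1_pow_X {σ : Type} (v : σ) (n : ℕ) : l1 (X v ^ n : MvPolynomial σ ℤ) ≤ 1 := by
  refine (l1_pow _ _).trans ?_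
  rw [l1_X, one_pow]

theorem shiftP_l1 {ι : Type} [Fintype ι] (D : ι → ℕ) (T : Finset (ι → ℤ × ℤ))
    (q : (ι → ℤ × ℤ) → ℤ) : l1 (shiftP D T q) ≤ ∑ t ∈ T, |(q t : ℝ)| := by
  refine (l1_sum _ _).trans (Finset.sum_le_sum fun t _ => ?_)
  refine (l1_mul _ _).trans ?_
  rw [l1_C]
  refine mul_le_of_le_one_right (abs_nonneg _) ?_
  refine (l1_prod _ _).trans (Finset.prod_le_one (fun _ _ => l1_nonneg _) fun i _ => ?_)
  refine (l1_mul _ _).trans ?_
  exact mul_le_one₀ (l1_pow_X _ _) (l1_nonneg _) (l1_pow_X _ _)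

private lemma unit_pow {A : Type} [CommRing A] (u : Aˣ) {a : ℤ} {d : ℕ} (h : |a| ≤ d) :
    (u : A) ^ (a + d).toNat = ((u ^ d * u ^ a : Aˣ) : A) := by
  have h1 : (0 : ℤ) ≤ a + d := by
    have := abs_le.1 h
    omega
  have h2 : u ^ d * u ^ a = u ^ (a + d).toNat := by
    rw [← zpow_natCast u (a + d).toNat, Int.toNat_of_nonneg h1, ← zpow_natCast u d, ← zpow_add,
      add_comm]
  rw [h2, Units.val_pow_eq_pow_val]

/-- the value at a point with coordinates in the units -/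
theorem shiftP_eval {ι : Type} [Fintype ι] (D : ι → ℕ) (T : Finset (ι → ℤ × ℤ))
    (q : (ι → ℤ × ℤ) → ℤ) (h : ∀ t ∈ T, ∀ i, |(t i).1| ≤ D i ∧ |(t i).2| ≤ D i)
    {A : Type} [CommRing A] (x y : ι → Aˣ) :
    aeval (Sum.elim (fun i => (x i : A)) (fun i => (y i : A))) (shiftP D T q) =
      ((∏ i, (x i ^ D i * y i ^ D i) : Aˣ) : A) * PC.lval T q x y := by
  unfold shiftP PC.lval
  rw [map_sum, Finset.mul_sum]
  refine Finset.sum_congr rfl fun t ht => ?_
  rw [map_mul, map_prod]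
  have h1 : ∀ i, aeval (Sum.elim (fun i => (x i : A)) (fun i => (y i : A)))
      (X (Sum.inl i) ^ ((t i).1 + D i).toNat * X (Sum.inr i) ^ ((t i).2 + D i).toNat :
        MvPolynomial (ι ⊕ ι) ℤ) =
      (((x i ^ D i * y i ^ D i) * (x i ^ (t i).1 * y i ^ (t i).2) : Aˣ) : A) := by
    intro i
    rw [map_mul, map_pow, map_pow, aeval_X, aeval_X, Sum.elim_inl, Sum.elim_inr,
      unit_pow _ (h t ht i).1, unit_pow _ (h t ht i).2, ← Units.val_mul]
    congr 1
    rw [mul_mul_mul_comm]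
  rw [Finset.prod_congr rfl fun i _ => h1 i, ← Units.coe_prod, Finset.prod_mul_distrib,
    Units.val_mul, MvPolynomial.aeval_C]
  ring

private lemma lval_complex {ι : Type} [Fintype ι] (T : Finset (ι → ℤ × ℤ))
    (q : (ι → ℤ × ℤ) → ℤ) (x y : ι → ℂˣ) :
    PC.lval T q x y = ∑ t ∈ T, ((q t : ℤ) : ℂ) *
      ∏ i, ((x i : ℂ) ^ (t i).1 * (y i : ℂ) ^ (t i).2) := by
  unfold PC.lval
  refine Finset.sum_congr rfl fun t _ => ?_
  rw [Units.coe_prod]
  congr 1
  refine Finset.prod_congr rfl fun i _ => ?_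
  rw [Units.val_mul, Units.val_zpow_eq_zpow_val, Units.val_zpow_eq_zpow_val]

theorem exists_norm {m : ℕ} {ι : Type} [Fintype ι] [DecidableEq ι] (C : ι → PC.Crv m) :
    ∃ B : ℝ, 1 ≤ B ∧ ∀ (D : ι → ℕ) (T₀ : Finset (ι → ℤ × ℤ)) (q₀ : (ι → ℤ × ℤ) → ℤ)
      (j : ι → Fin m), (∀ i, j i ∈ (C i).good) →
      (∀ t ∈ T₀, ∀ i, |(t i).1| ≤ D i ∧ |(t i).2| ≤ D i) →
      Set.InjOn (fun (t : ι → ℤ × ℤ) i => PC.pr ((C i).ray (j i)) (t i)) T₀ →
      (∃ t ∈ T₀, q₀ t ≠ 0) →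
      ∃ N : MvPolynomial ι ℤ, N ≠ 0 ∧ (∀ i, (N.degreeOf i : ℝ) ≤ B * (D i + 1)) ∧
        Real.log (l1 N) ≤ B * (Real.log (∑ t ∈ T₀, |(q₀ t : ℝ)|) + ∑ i, ((D i : ℝ) + 1)) ∧
        PC.DvdC C T₀ q₀ N := by
  obtain ⟨B, hB1, hB⟩ := elim_all C
  have hB1' : (1 : ℝ) ≤ B := by exact_mod_cast hB1
  refine ⟨2 * B, by linarith, ?_⟩
  intro D T₀ q₀ j hj hD hinj hq
  have hdeg := shiftP_degreeOf D T₀ q₀ hD
  -- the polynomial does not vanish at the generic points
  have hne : ∀ x y : ι → ℂ, AlgebraicIndependent ℚ x →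
      (∀ i, aeval ![x i, y i] (C i).f = 0) → aeval (Sum.elim x y) (shiftP D T₀ q₀) ≠ 0 := by
    intro x y hx hxy
    have htr : ∀ i, Transcendental ℤ (x i) := by
      intro i h2
      exact (hx.transcendental i) (h2.extendScalars (algebraMap ℤ ℚ).injective_int)
    have hx0 : ∀ i, x i ≠ 0 := by
      intro i h0
      apply htr i
      rw [h0]
      exact isAlgebraic_zero
    have hy0 : ∀ i, y i ≠ 0 := fun i => root_ne_zero (C i).irr (C i).degX (htr i) (hxy i)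
    have h1 := shiftP_eval D T₀ q₀ hD (fun i => Units.mk0 (x i) (hx0 i))
      (fun i => Units.mk0 (y i) (hy0 i))
    have h2 := lval_complex T₀ q₀ (fun i => Units.mk0 (x i) (hx0 i))
      (fun i => Units.mk0 (y i) (hy0 i))
    simp only [Units.val_mk0] at h1 h2
    have h3 := ne_zero_of_keys C j hj x y hx hxy Finset.univ T₀ (fun t => ((q₀ t : ℤ) : ℂ))
      (fun t _ => isAlgebraic_intCast (q₀ t)) (by
        intro t ht t' ht' htt
        apply hinj ht ht'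
        funext i
        exact htt i (Finset.mem_univ i)) (by
        obtain ⟨t, ht, hqt⟩ := hq
        exact ⟨t, ht, by exact_mod_cast hqt⟩)
    rw [h1, h2]
    exact mul_ne_zero (Units.ne_zero _) h3
  obtain ⟨N, hN0, hNd, hNl, hNdvd⟩ := hB (fun i => 2 * D i) (shiftP D T₀ q₀)
    (fun i => (hdeg i).1) (fun i => (hdeg i).2) hne
  -- the polynomial is not zero
  have hP0 : shiftP D T₀ q₀ ≠ 0 := by
    obtain ⟨x, hx⟩ := exists_algebraicIndependent ι
    have htr : ∀ i, Transcendental ℤ (x i) := by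
      intro i h2
      exact (hx.transcendental i) (h2.extendScalars (algebraMap ℤ ℚ).injective_int)
    choose y hy using fun i => exists_root (C i).degY (htr i)
    intro h0
    apply hne x y hx hy
    rw [h0, map_zero]
  have hl1 : (1 : ℝ) ≤ l1 (shiftP D T₀ q₀) := one_le_l1 hP0
  have hlog : Real.log (l1 (shiftP D T₀ q₀)) ≤ Real.log (∑ t ∈ T₀, |(q₀ t : ℝ)|) :=
    Real.log_le_log (by linarith) (shiftP_l1 D T₀ q₀)
  have hlog0 : 0 ≤ Real.log (l1 (shiftP D T₀ q₀)) := Real.log_nonneg hl1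
  have hsum0 : (0 : ℝ) ≤ ∑ i, (D i : ℝ) := Finset.sum_nonneg fun _ _ => Nat.cast_nonneg _
  refine ⟨N, hN0, ?_, ?_, ?_⟩
  · intro i
    have h1 : (N.degreeOf i : ℝ) ≤ (B : ℝ) * (2 * D i) := by exact_mod_cast hNd i
    nlinarith
  · have h1 : ∑ i, (((2 * D i : ℕ)) : ℝ) = 2 * ∑ i, (D i : ℝ) := by
      rw [Finset.mul_sum]
      refine Finset.sum_congr rfl fun i _ => ?_
      push_cast
      ring
    have h2 : ∑ i, (D i : ℝ) ≤ ∑ i, ((D i : ℝ) + 1) :=
      Finset.sum_le_sum fun i _ => by linarith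
    refine hNl.trans ?_
    rw [h1]
    have hB0 : (0 : ℝ) ≤ B := by linarith
    calc (B : ℝ) * (Real.log (l1 (shiftP D T₀ q₀)) + 2 * ∑ i, (D i : ℝ))
        ≤ B * (2 * Real.log (∑ t ∈ T₀, |(q₀ t : ℝ)|) + 2 * ∑ i, ((D i : ℝ) + 1)) :=
          mul_le_mul_of_nonneg_left (by linarith) hB0
      _ = 2 * B * (Real.log (∑ t ∈ T₀, |(q₀ t : ℝ)|) + ∑ i, ((D i : ℝ) + 1)) := by ring
  · intro A _ x y hxy
    have h1 := hNdvd A (Sum.elim (fun i => (x i : A)) (fun i => (y i : A)))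
      (fun i => by simpa using hxy i)
    rw [shiftP_eval D T₀ q₀ hD x y] at h1
    simp only [Sum.elim_inl] at h1
    exact (Dvd.intro_left _ rfl).trans h1

end Pool.Agent.PN
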