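import Mathlib

/-! MP_c95b3b_ag, project (P), block N: algebraically closed subfields and generic points. -/

set_option autoImplicit false

open MvPolynomial

namespace Pool.Agent.PN

/-- the algebraic closure in `ℂ` of the field generated by a part of an algebraically independent
family -/
theorem exists_subfield {ι : Type} [Finite ι] (x : ι → ℂ) (hx : AlgebraicIndependent ℚ x)
    (s : Finset ι) :
    ∃ E : Subfield ℂ, IsAlgClosed E ∧ (∀ i ∈ s, x i ∈ E) ∧ (∀ i ∉ s, Transcendental E (x i)) ∧
      ∀ z : ℂ, IsAlgebraic E z → z ∈ E := by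
  let F : IntermediateField ℚ ℂ := IntermediateField.adjoin ℚ (x '' (s : Set ι))
  have hclosed : IsAlgClosed (algebraicClosure F ℂ) :=
    (inferInstance : IsAlgClosure F (algebraicClosure F ℂ)).isAlgClosed
  refine ⟨(algebraicClosure F ℂ).toSubfield, hclosed, ?_, ?_, ?_⟩
  · intro i hi
    have h1 : x i ∈ F := IntermediateField.subset_adjoin ℚ _ ⟨i, hi, rfl⟩
    change x i ∈ algebraicClosure F ℂ
    rw [mem_algebraicClosure_iff]
    exact isAlgebraic_algebraMap (⟨x i, h1⟩ : F)
  · intro i hi
    have h1 : Transcendental (Algebra.adjoin ℚ (x '' (s : Set ι))) (x i) :=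
      hx.transcendental_adjoin (by simpa using hi)
    have h2 : Transcendental F (x i) := IntermediateField.transcendental_adjoin_iff.2 h1
    exact h2.algebraicClosure
  · intro z hz
    change IsAlgebraic (algebraicClosure F ℂ) z at hz
    change z ∈ algebraicClosure F ℂ
    by_contra hcon
    rw [mem_algebraicClosure_iff] at hcon
    exact (Transcendental.algebraicClosure hcon) hz

theorem exists_algebraicIndependent (ι : Type) [Finite ι] :
    ∃ x : ι → ℂ, AlgebraicIndependent ℚ x := by
  obtain ⟨s, hs⟩ := exists_isTranscendenceBasis ℚ ℂ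
  have hR : Cardinal.mk ℚ ≤ Cardinal.aleph0 := Cardinal.mk_le_aleph0
  have hC : Cardinal.aleph0 < Cardinal.mk ℂ := by
    rw [Cardinal.mk_complex]
    exact Cardinal.aleph0_lt_continuum
  have e1 : Cardinal.mk ℂ = Cardinal.mk s :=
    IsAlgClosed.cardinal_eq_cardinal_transcendence_basis_of_aleph0_lt' _ hs hR hC
  have h2 : Cardinal.mk ι ≤ Cardinal.mk s := by
    rw [← e1]
    exact (Cardinal.lt_aleph0_of_finite ι).le.trans hC.le
  obtain ⟨e⟩ := h2
  exact ⟨fun i => (e i : ℂ), hs.1.comp e e.injective⟩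

/-- polynomials in two variables as polynomials in the second one -/
noncomputable def subF : MvPolynomial (Fin 2) ℤ →ₐ[ℤ] Polynomial (Polynomial ℤ) :=
  aeval ![Polynomial.C Polynomial.X, Polynomial.X]

/-- the inverse -/
noncomputable def subB : Polynomial (Polynomial ℤ) →+* MvPolynomial (Fin 2) ℤ :=
  Polynomial.eval₂RingHom (Polynomial.aeval (X 0 : MvPolynomial (Fin 2) ℤ)).toRingHom (X 1)

theorem subB_subF (f : MvPolynomial (Fin 2) ℤ) : subB (subF f) = f := by
  induction f using MvPolynomial.induction_on with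
  | C a =>
    simp [subF, subB]
  | add p q hp hq => rw [map_add, map_add, hp, hq]
  | mul_X p i hp =>
    rw [map_mul, map_mul, hp]
    fin_cases i
    · simp [subF, subB]
    · simp [subF, subB]

theorem subF_ne {f : MvPolynomial (Fin 2) ℤ} (hf : f ≠ 0) : subF f ≠ 0 := by
  intro h
  apply hf
  rw [← subB_subF f, h, map_zero]

/-- evaluation at the first coordinate -/
noncomputable def subE (x : ℂ) : Polynomial ℤ →+* ℂ := (Polynomial.aeval x).toRingHom

theorem subE_inj {x : ℂ} (hx : Transcendental ℤ x) : Function.Injective (subE x) := by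
  rw [injective_iff_map_eq_zero]
  intro p hp
  exact (transcendental_iff.1 hx) p hp

theorem aeval_eq (x y : ℂ) (f : MvPolynomial (Fin 2) ℤ) :
    aeval ![x, y] f = ((subF f).map (subE x)).eval y := by
  induction f using MvPolynomial.induction_on with
  | C a =>
    simp [subF, subE]
  | add p q hp hq => rw [map_add, map_add, hp, hq, Polynomial.map_add, Polynomial.eval_add]
  | mul_X p i hp =>
    rw [map_mul, map_mul, hp, Polynomial.map_mul, Polynomial.eval_mul]
    fin_cases i
    · simp [subF, subE]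
    · simp [subF, subE]

theorem map_ne {f : MvPolynomial (Fin 2) ℤ} (hf : f ≠ 0) {x : ℂ} (hx : Transcendental ℤ x) :
    (subF f).map (subE x) ≠ 0 :=
  (Polynomial.map_ne_zero_iff (subE_inj hx)).2 (subF_ne hf)

theorem degreeOf_aeval (c : Polynomial ℤ) :
    (Polynomial.aeval (X 0 : MvPolynomial (Fin 2) ℤ) c).degreeOf 1 = 0 := by
  rw [Polynomial.aeval_eq_sum_range]
  refine Nat.le_zero.1 ((degreeOf_sum_le _ _ _).trans (Finset.sup_le fun i _ => ?_))
  rw [MvPolynomial.smul_eq_C_mul]
  refine (degreeOf_mul_le _ _ _).trans ?_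
  rw [degreeOf_C]
  refine (Nat.add_le_add_left (degreeOf_pow_le _ _ _) _).trans ?_
  rw [degreeOf_X_of_ne (by decide)]
  simp

/-- the other coordinate of a generic point -/
theorem exists_root {f : MvPolynomial (Fin 2) ℤ} (hf : 0 < f.degreeOf 1) {x : ℂ}
    (hx : Transcendental ℤ x) : ∃ y : ℂ, aeval ![x, y] f = 0 := by
  have h1 : (subF f).natDegree ≠ 0 := by
    intro h0
    have h2 := Polynomial.eq_C_of_natDegree_eq_zero h0
    have h3 := subB_subF f
    rw [h2] at h3
    have h4 : subB (Polynomial.C ((subF f).coeff 0)) =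
        Polynomial.aeval (X 0 : MvPolynomial (Fin 2) ℤ) ((subF f).coeff 0) := by
      simp [subB]
    rw [h4] at h3
    have h5 := degreeOf_aeval ((subF f).coeff 0)
    rw [h3] at h5
    omega
  have h2 : ((subF f).map (subE x)).degree ≠ 0 := by
    intro h0
    apply h1
    have h3 := Polynomial.natDegree_eq_of_degree_eq_some h0
    rwa [Polynomial.natDegree_map_eq_of_injective (subE_inj hx)] at h3
  obtain ⟨y, hy⟩ := IsAlgClosed.exists_root _ h2
  exact ⟨y, by rw [aeval_eq]; exact hy⟩

/-- it is algebraic over the first one -/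
theorem isAlgebraic_root {f : MvPolynomial (Fin 2) ℤ} (hf : f ≠ 0) {E : Subfield ℂ} {x y : ℂ}
    (hx : Transcendental ℤ x) (hxE : x ∈ E) (h : aeval ![x, y] f = 0) : IsAlgebraic E y := by
  let ψ : Polynomial ℤ →+* E := (Polynomial.aeval (⟨x, hxE⟩ : E)).toRingHom
  have hψ : (algebraMap E ℂ).comp ψ = subE x := by
    refine Polynomial.ringHom_ext (fun a => by simp [ψ, subE]) ?_
    have h1 : ψ Polynomial.X = ⟨x, hxE⟩ := Polynomial.aeval_X _
    have h2 : subE x Polynomial.X = x := Polynomial.aeval_X _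
    rw [RingHom.comp_apply, h1, h2]
    rfl
  have hmap : ((subF f).map ψ).map (algebraMap E ℂ) = (subF f).map (subE x) := by
    rw [Polynomial.map_map, hψ]
  refine ⟨(subF f).map ψ, ?_, ?_⟩
  · intro h0
    apply map_ne hf hx
    rw [← hmap, h0, Polynomial.map_zero]
  · rw [Polynomial.aeval_def, Polynomial.eval₂_eq_eval_map, hmap, ← aeval_eq]
    exact h

/-- it is not zero -/
theorem root_ne_zero {f : MvPolynomial (Fin 2) ℤ} (hf : Irreducible f) (hX : 0 < f.degreeOf 0)
    {x y : ℂ} (hx : Transcendental ℤ x) (h : aeval ![x, y] f = 0) : y ≠ 0 := by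
  rintro rfl
  rw [aeval_eq, ← Polynomial.coeff_zero_eq_eval_zero, Polynomial.coeff_map] at h
  have h1 : (subF f).coeff 0 = 0 := subE_inj hx (by rw [h, map_zero])
  obtain ⟨g, hg⟩ := Polynomial.X_dvd_iff.2 h1
  have h2 : f = X 1 * subB g := by
    rw [← subB_subF f, hg, map_mul]
    congr 1
    simp [subB]
  rcases hf.isUnit_or_isUnit h2 with h3 | h3
  · have h4 := h3.map (MvPolynomial.aeval (fun _ : Fin 2 => (0 : ℤ)))
    rw [aeval_X] at h4
    exact not_isUnit_zero h4
  · obtain ⟨u, hu⟩ := h3
    have h5 : (u : MvPolynomial (Fin 2) ℤ) * (u⁻¹ : (MvPolynomial (Fin 2) ℤ)ˣ) = 1 := u.mul_inv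
    have h6 := MvPolynomial.degreeOf_mul_eq (n := 0) (Units.ne_zero u) (Units.ne_zero u⁻¹)
    rw [h5] at h6
    have h7 : (1 : MvPolynomial (Fin 2) ℤ).degreeOf 0 = 0 := by
      rw [← C_1, degreeOf_C]
    have h8 := MvPolynomial.degreeOf_mul_eq (n := 0) (X_ne_zero (R := ℤ) (1 : Fin 2))
      (Units.ne_zero u)
    rw [hu, ← h2, degreeOf_X_of_ne (by decide), ← hu] at h8
    omega

end Pool.Agent.PN
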