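import Pool.Agent.Lib.MP_c95b3b_ag_PN.Elim
import Pool.Agent.Lib.MP_c95b3b_ag_PN.Sub
import Pool.Agent.Lib.MP_c95b3b_ag_PC.Defs

/-! MP_c95b3b_ag, project (P), block N: elimination of all the variables `y i`. -/

set_option autoImplicit false

open MvPolynomial Pool.Agent.AL

namespace Pool.Agent.PN

private theorem all_transc {ι : Type} {x : ι → ℂ} (hx : AlgebraicIndependent ℚ x) (i : ι) :
    Transcendental ℤ (x i) := by
  have h1 : Transcendental ℚ (x i) := hx.transcendental i
  intro h2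
  exact h1 (h2.extendScalars (algebraMap ℤ ℚ).injective_int)

/-- a polynomial which does not vanish at the generic points is not zero -/
private theorem all_ne_zero {m : ℕ} {ι : Type} [Fintype ι] (C : ι → PC.Crv m)
    (R : MvPolynomial (ι ⊕ ι) ℤ)
    (h : ∀ x y : ι → ℂ, AlgebraicIndependent ℚ x → (∀ i, aeval ![x i, y i] (C i).f = 0) →
      aeval (Sum.elim x y) R ≠ 0) : R ≠ 0 := by
  obtain ⟨x, hx⟩ := exists_algebraicIndependent ι
  have hy : ∀ i, ∃ y : ℂ, aeval ![x i, y] (C i).f = 0 := fun i =>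
    exists_root (C i).degY (all_transc hx i)
  choose y hy using hy
  intro h0
  apply h x y hx hy
  rw [h0, map_zero]

/-- elimination of the variables `y i`, `i ∈ s` -/
theorem elim_set {m : ℕ} {ι : Type} [Fintype ι] [DecidableEq ι] (C : ι → PC.Crv m)
    (s : Finset ι) :
    ∃ B : ℕ, 1 ≤ B ∧ ∀ (D : ι → ℕ) (P : MvPolynomial (ι ⊕ ι) ℤ),
      (∀ i, P.degreeOf (Sum.inl i) ≤ D i) → (∀ i, P.degreeOf (Sum.inr i) ≤ D i) →
      (∀ x y : ι → ℂ, AlgebraicIndependent ℚ x → (∀ i, aeval ![x i, y i] (C i).f = 0) →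
        aeval (Sum.elim x y) P ≠ 0) →
      ∃ Q : MvPolynomial (ι ⊕ ι) ℤ, Q ≠ 0 ∧ (∀ i ∈ s, Q.degreeOf (Sum.inr i) = 0) ∧
        (∀ i, Q.degreeOf (Sum.inl i) ≤ B * D i) ∧ (∀ i, Q.degreeOf (Sum.inr i) ≤ B * D i) ∧
        Real.log (l1 Q) ≤ B * (Real.log (l1 P) + ∑ i, (D i : ℝ)) ∧
        (∀ (A : Type) [CommRing A] (z : ι ⊕ ι → A),
          (∀ i ∈ s, aeval ![z (Sum.inl i), z (Sum.inr i)] (C i).f = 0) →
          aeval z P ∣ aeval z Q) ∧
        ∀ x y : ι → ℂ, AlgebraicIndependent ℚ x →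
          (∀ i, i ∉ s → aeval ![x i, y i] (C i).f = 0) → aeval (Sum.elim x y) Q ≠ 0 := by
  induction s using Finset.induction_on with
  | empty =>
    refine ⟨1, le_refl 1, fun D P hl hr hP => ?_⟩
    refine ⟨P, all_ne_zero C P hP, by simp, by simpa using hl, by simpa using hr, ?_, ?_, ?_⟩
    · have : (0 : ℝ) ≤ ∑ i, (D i : ℝ) := Finset.sum_nonneg fun i _ => Nat.cast_nonneg _
      simpa using this
    · intro A _ z _
      exact dvd_refl _
    · intro x y hx hy
      exact hP x y hx fun i => hy i (by simp)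
  | insert k s hk ih =>
    obtain ⟨B, hB, ih⟩ := ih
    set d₁ := (C k).f.degreeOf 1 with hd₁
    set d₀ := (C k).f.degreeOf 0 with hd₀
    set c := ⌈Real.log (l1 (C k).f)⌉₊ with hc
    have hd₁1 : 1 ≤ d₁ := (C k).degY
    refine ⟨B * (d₁ + d₀ + c), Nat.one_le_iff_ne_zero.2 (by positivity), fun D P hl hr hP => ?_⟩
    obtain ⟨Q, hQ0, hQs, hQl, hQr, hQL, hQd, hQv⟩ := ih D P hl hr hP
    obtain ⟨R, hRk, hRv, hRl, hRL, hRd, hRn⟩ := elim_one (C k).f (C k).degY k Q
    have hgen : ∀ x y : ι → ℂ, AlgebraicIndependent ℚ x →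
        (∀ i, i ∉ insert k s → aeval ![x i, y i] (C i).f = 0) →
        aeval (Sum.elim x y) R ≠ 0 := by
      intro x y hx hy
      apply hRn
      · exact all_transc hx k
      · intro y' hy'
        have hup : Function.update (Sum.elim x y) (Sum.inr k) y' =
            Sum.elim x (Function.update y k y') := by
          funext v
          rcases v with v | v
          · simp
          · by_cases hvk : v = k
            · subst hvk
              simp
            · have : (Sum.inr v : ι ⊕ ι) ≠ Sum.inr k := fun h => hvk (Sum.inr_injective h)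
              simp [Function.update_of_ne this, Function.update_of_ne hvk]
        rw [hup]
        apply hQv x _ hx
        intro i hi
        by_cases hik : i = k
        · subst hik
          simpa using hy'
        · rw [Function.update_of_ne hik]
          apply hy
          simp [hik, hi]
    have hR0 : R ≠ 0 := all_ne_zero C R fun x y hx hy => hgen x y hx fun i _ => hy i
    have hP0 : P ≠ 0 := all_ne_zero C P hP
    refine ⟨R, hR0, ?_, ?_, ?_, ?_, ?_, hgen⟩
    · intro i hi
      rcases Finset.mem_insert.1 hi with rfl | hi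
      · exact hRk
      · have h1 := hRv (Sum.inr i) (by simp)
        rw [hQs i hi, mul_zero] at h1
        exact Nat.le_zero.1 h1
    · intro i
      by_cases hik : i = k
      · subst hik
        calc R.degreeOf (Sum.inl i) ≤ d₁ * Q.degreeOf (Sum.inl i) + d₀ * Q.degreeOf (Sum.inr i) :=
              hRl
          _ ≤ d₁ * (B * D i) + d₀ * (B * D i) := by gcongr <;> [exact hQl i; exact hQr i]
          _ = B * (d₁ + d₀) * D i := by ring
          _ ≤ B * (d₁ + d₀ + c) * D i :=
            Nat.mul_le_mul_right _ (Nat.mul_le_mul_left _ (by omega))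
      · have h1 := hRv (Sum.inl i) (fun h => hik (Sum.inl_injective h))
        calc R.degreeOf (Sum.inl i) ≤ d₁ * Q.degreeOf (Sum.inl i) := h1
          _ ≤ d₁ * (B * D i) := by gcongr; exact hQl i
          _ = B * d₁ * D i := by ring
          _ ≤ B * (d₁ + d₀ + c) * D i :=
            Nat.mul_le_mul_right _ (Nat.mul_le_mul_left _ (by omega))
    · intro i
      have h1 := hRv (Sum.inr i) (by simp)
      calc R.degreeOf (Sum.inr i) ≤ d₁ * Q.degreeOf (Sum.inr i) := h1
        _ ≤ d₁ * (B * D i) := by gcongr; exact hQr i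
        _ = B * d₁ * D i := by ring
        _ ≤ B * (d₁ + d₀ + c) * D i :=
          Nat.mul_le_mul_right _ (Nat.mul_le_mul_left _ (by omega))
    · have hf0 : (C k).f ≠ 0 := (C k).irr.ne_zero
      have hf1 : 1 ≤ l1 (C k).f := one_le_l1 hf0
      have hQ1 : 1 ≤ l1 Q := one_le_l1 hQ0
      have hP1 : 1 ≤ l1 P := one_le_l1 hP0
      have hR1 : 1 ≤ l1 R := one_le_l1 hR0
      have hlP : 0 ≤ Real.log (l1 P) := Real.log_nonneg hP1
      have hlf : 0 ≤ Real.log (l1 (C k).f) := Real.log_nonneg hf1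
      have hlc : Real.log (l1 (C k).f) ≤ c := Nat.le_ceil _
      set T₀ : ℝ := ∑ i, (D i : ℝ) with hS
      have hS0 : 0 ≤ T₀ := Finset.sum_nonneg fun i _ => Nat.cast_nonneg _
      have hDk : (D k : ℝ) ≤ T₀ :=
        Finset.single_le_sum (f := fun i => (D i : ℝ)) (fun i _ => Nat.cast_nonneg _)
          (Finset.mem_univ k)
      have h1 : Real.log (l1 R) ≤ Q.degreeOf (Sum.inr k) * Real.log (l1 (C k).f) +
          d₁ * Real.log (l1 Q) := by
        have h2 : Real.log (l1 R) ≤
            Real.log (l1 (C k).f ^ Q.degreeOf (Sum.inr k) * l1 Q ^ d₁) :=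
          Real.log_le_log (by linarith) hRL
        rw [Real.log_mul (by positivity) (by positivity), Real.log_pow, Real.log_pow] at h2
        exact h2
      have h2 : (Q.degreeOf (Sum.inr k) : ℝ) ≤ B * D k := by exact_mod_cast hQr k
      have hB0 : (0 : ℝ) ≤ B := Nat.cast_nonneg _
      have hc0 : (0 : ℝ) ≤ c := Nat.cast_nonneg _
      have hd10 : (0 : ℝ) ≤ d₁ := Nat.cast_nonneg _
      have hd00 : (0 : ℝ) ≤ d₀ := Nat.cast_nonneg _
      calc Real.log (l1 R) ≤ Q.degreeOf (Sum.inr k) * Real.log (l1 (C k).f) +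
            d₁ * Real.log (l1 Q) := h1
        _ ≤ (B * D k) * c + d₁ * (B * (Real.log (l1 P) + T₀)) := by
            gcongr
        _ ≤ (B * (Real.log (l1 P) + T₀)) * c + d₁ * (B * (Real.log (l1 P) + T₀)) := by
            gcongr
            linarith
        _ = B * (d₁ + c) * (Real.log (l1 P) + T₀) := by ring
        _ ≤ B * (d₁ + d₀ + c) * (Real.log (l1 P) + T₀) := by
            gcongr
            linarith
        _ = ((B * (d₁ + d₀ + c) : ℕ) : ℝ) * (Real.log (l1 P) + T₀) := by push_cast; ring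
    · intro A _ z hz
      exact (hQd A z fun i hi => hz i (Finset.mem_insert_of_mem hi)).trans
        (hRd A z (hz k (Finset.mem_insert_self k s)))

private lemma all_l1_rename {σ τ : Type} (f : σ → τ) (hf : Function.Injective f)
    (p : MvPolynomial σ ℤ) : l1 (rename f p) = l1 p := by
  classical
  have hinj : Function.Injective (Finsupp.mapDomain f : (σ →₀ ℕ) → (τ →₀ ℕ)) :=
    Finsupp.mapDomain_injective hf
  unfold l1
  rw [support_rename_of_injective hf, Finset.sum_image fun a _ b _ h => hinj h]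
  refine Finset.sum_congr rfl fun a _ => ?_
  rw [coeff_rename_mapDomain f hf]

theorem elim_all {m : ℕ} {ι : Type} [Fintype ι] [DecidableEq ι] (C : ι → PC.Crv m) :
    ∃ B : ℕ, 1 ≤ B ∧ ∀ (D : ι → ℕ) (P : MvPolynomial (ι ⊕ ι) ℤ),
      (∀ i, P.degreeOf (Sum.inl i) ≤ D i) → (∀ i, P.degreeOf (Sum.inr i) ≤ D i) →
      (∀ x y : ι → ℂ, AlgebraicIndependent ℚ x → (∀ i, aeval ![x i, y i] (C i).f = 0) →
        aeval (Sum.elim x y) P ≠ 0) →
      ∃ N : MvPolynomial ι ℤ, N ≠ 0 ∧ (∀ i, N.degreeOf i ≤ B * D i) ∧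
        Real.log (l1 N) ≤ B * (Real.log (l1 P) + ∑ i, (D i : ℝ)) ∧
        ∀ (A : Type) [CommRing A] (z : ι ⊕ ι → A),
          (∀ i, aeval ![z (Sum.inl i), z (Sum.inr i)] (C i).f = 0) →
          aeval z P ∣ aeval (fun i => z (Sum.inl i)) N := by
  obtain ⟨B, hB, h⟩ := elim_set C Finset.univ
  refine ⟨B, hB, fun D P hl hr hP => ?_⟩
  obtain ⟨Q, hQ0, hQs, hQl, hQr, hQL, hQd, hQv⟩ := h D P hl hr hP
  have hvars : (Q.vars : Set (ι ⊕ ι)) ⊆ Set.range Sum.inl := by
    intro v hv
    rcases v with v | v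
    · exact ⟨v, rfl⟩
    · exfalso
      have h1 := hQs v (Finset.mem_univ v)
      have h2 : Sum.inr v ∈ Q.vars := hv
      rw [mem_vars_iff_mem_support] at h2
      obtain ⟨d, hd, hdv⟩ := h2
      have h3 : d (Sum.inr v) ≤ Q.degreeOf (Sum.inr v) := by
        rw [degreeOf_eq_sup]
        exact Finset.le_sup (f := fun m : (ι ⊕ ι) →₀ ℕ => m (Sum.inr v)) hd
      rw [Finsupp.mem_support_iff] at hdv
      omega
  obtain ⟨N, hN⟩ := exists_rename_eq_of_vars_subset_range Q Sum.inl Sum.inl_injective hvars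
  have hN' : Q = rename Sum.inl N := hN.symm
  refine ⟨N, ?_, ?_, ?_, ?_⟩
  · rintro rfl
    apply hQ0
    rw [hN', map_zero]
  · intro i
    have h1 := hQl i
    rw [hN', degreeOf_rename_of_injective Sum.inl_injective] at h1
    exact h1
  · rw [hN', all_l1_rename _ Sum.inl_injective] at hQL
    exact hQL
  · intro A _ z hz
    have h1 := hQd A z fun i _ => hz i
    rw [hN', aeval_rename] at h1
    exact h1

end Pool.Agent.PN
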