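import Pool.Agent.Lib.MP_c95b3b_ag_AL.ZF

/-! MP_c95b3b_ag, project (P), block N: elimination of one of the variables `y i` by a
resultant. -/

set_option autoImplicit false

open MvPolynomial Pool.Agent.AL

namespace Pool.Agent.PN

namespace Elim

/-- a polynomial given as a sum of terms -/
private noncomputable def build {σ κ : Type} (S : Finset κ) (c : κ → MvPolynomial σ ℤ)
    (e : κ → ℕ) : Polynomial (MvPolynomial σ ℤ) :=
  ∑ m ∈ S, Polynomial.C (c m) * Polynomial.X ^ e m

private lemma coeff_build {σ κ : Type} (S : Finset κ) (c : κ → MvPolynomial σ ℤ)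
    (e : κ → ℕ) (k : ℕ) : (build S c e).coeff k = ∑ m ∈ S, if e m = k then c m else 0 := by
  unfold build
  rw [Polynomial.finsetSum_coeff]
  refine Finset.sum_congr rfl fun m _ => ?_
  rw [Polynomial.coeff_C_mul, Polynomial.coeff_X_pow]
  by_cases h : e m = k
  · simp [h]
  · rw [if_neg h, if_neg (fun h' => h h'.symm), mul_zero]

private lemma natDegree_build {σ κ : Type} (S : Finset κ) (c : κ → MvPolynomial σ ℤ)
    (e : κ → ℕ) {N : ℕ} (h : ∀ m ∈ S, e m ≤ N) : (build S c e).natDegree ≤ N := by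
  rw [Polynomial.natDegree_le_iff_coeff_eq_zero]
  intro k hk
  rw [coeff_build]
  refine Finset.sum_eq_zero fun m hm => ?_
  rw [if_neg]
  have := h m hm
  omega

private lemma degreeOf_build {σ κ : Type} (S : Finset κ) (c : κ → MvPolynomial σ ℤ)
    (e : κ → ℕ) (w : σ) {N : ℕ} (h : ∀ m ∈ S, (c m).degreeOf w ≤ N) (k : ℕ) :
    ((build S c e).coeff k).degreeOf w ≤ N := by
  rw [coeff_build]
  refine le_trans (degreeOf_sum_le _ _ _) (Finset.sup_le fun m hm => ?_)
  split
  · exact h m hm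
  · rw [degreeOf_zero]
    exact Nat.zero_le _

private lemma l1_build {σ κ : Type} (S : Finset κ) (c : κ → MvPolynomial σ ℤ)
    (e : κ → ℕ) (N : ℕ) :
    ∑ k ∈ Finset.range N, l1 ((build S c e).coeff k) ≤ ∑ m ∈ S, l1 (c m) := by
  have h1 : ∀ k, l1 ((build S c e).coeff k) ≤ ∑ m ∈ S, if e m = k then l1 (c m) else 0 := by
    intro k
    rw [coeff_build]
    refine (l1_sum _ _).trans (Finset.sum_le_sum fun m _ => ?_)
    split
    · exact le_rfl
    · exact l1_zero.le
  refine (Finset.sum_le_sum fun k _ => h1 k).trans ?_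
  rw [Finset.sum_comm]
  refine Finset.sum_le_sum fun m _ => ?_
  rw [Finset.sum_ite_eq]
  split
  · exact le_rfl
  · exact l1_nonneg _

private lemma eval₂_build {σ κ A : Type} [CommRing A] (S : Finset κ) (c : κ → MvPolynomial σ ℤ)
    (e : κ → ℕ) (φ : MvPolynomial σ ℤ →+* A) (y : A) :
    (build S c e).eval₂ φ y = ∑ m ∈ S, φ (c m) * y ^ e m := by
  unfold build
  rw [Polynomial.eval₂_finsetSum]
  refine Finset.sum_congr rfl fun m _ => ?_
  simp

private lemma l1_monomial {σ : Type} (m : σ →₀ ℕ) (a : ℤ) :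
    l1 (monomial m a) = |(a : ℝ)| := by
  rw [ZA.l1_eq, ZA.L_monomial]
  rfl

/-- `f (x i, Y)` -/
private noncomputable def FF {σ : Type} (f : MvPolynomial (Fin 2) ℤ) (u : σ) :
    Polynomial (MvPolynomial σ ℤ) :=
  build f.support (fun m => monomial (Finsupp.single u (m 0)) (coeff m f)) (fun m => m 1)

/-- `P (.., Y, ..)` -/
private noncomputable def GG {σ : Type} (P : MvPolynomial σ ℤ) (v : σ) :
    Polynomial (MvPolynomial σ ℤ) :=
  build P.support (fun m => monomial (m.erase v) (coeff m P)) (fun m => m v)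

private lemma eval_FF {σ A : Type} [CommRing A] (f : MvPolynomial (Fin 2) ℤ) (u : σ) (z : σ → A)
    (y : A) : (FF f u).eval₂ (aeval z : MvPolynomial σ ℤ →ₐ[ℤ] A).toRingHom y
      = aeval ![z u, y] f := by
  unfold FF
  rw [eval₂_build]
  conv_rhs => rw [f.as_sum, map_sum]
  refine Finset.sum_congr rfl fun m _ => ?_
  simp only [AlgHom.toRingHom_eq_coe, RingHom.coe_coe, aeval_monomial]
  rw [Finsupp.prod_single_index (by simp), Finsupp.prod_fintype _ _ (by simp)]
  simp [Fin.prod_univ_two, mul_assoc]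

private lemma eval_GG {σ A : Type} [DecidableEq σ] [CommRing A] (P : MvPolynomial σ ℤ) (v : σ)
    (z : σ → A) (y : A) : (GG P v).eval₂ (aeval z : MvPolynomial σ ℤ →ₐ[ℤ] A).toRingHom y
      = aeval (Function.update z v y) P := by
  unfold GG
  rw [eval₂_build]
  conv_rhs => rw [P.as_sum, map_sum]
  refine Finset.sum_congr rfl fun m _ => ?_
  simp only [AlgHom.toRingHom_eq_coe, RingHom.coe_coe, aeval_monomial]
  rw [mul_assoc]
  congr 1
  have h1 : m.prod (fun i e => Function.update z v y i ^ e)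
      = y ^ m v * (m.erase v).prod (fun i e => Function.update z v y i ^ e) := by
    rw [← Finsupp.mul_prod_erase' m v (fun i e => Function.update z v y i ^ e) (by simp)]
    rw [Function.update_self]
  rw [h1, mul_comm]
  congr 1
  refine Finsupp.prod_congr fun i hi => ?_
  have : i ≠ v := by
    rintro rfl
    simp at hi
  rw [Function.update_of_ne this]

private lemma le_degreeOf {σ : Type} {P : MvPolynomial σ ℤ} (v : σ) {m : σ →₀ ℕ}
    (hm : m ∈ P.support) : m v ≤ P.degreeOf v := by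
  classical
  exact degreeOf_le_iff.1 le_rfl m hm

private lemma degreeOf_mono {σ : Type} (w : σ) (m : σ →₀ ℕ) (a : ℤ) :
    (monomial m a).degreeOf w ≤ m w := by
  classical
  rw [degreeOf_le_iff]
  intro m' hm'
  have := support_monomial_subset hm'
  rw [Finset.mem_singleton] at this
  rw [this]

private lemma deg_FF {σ : Type} (f : MvPolynomial (Fin 2) ℤ) (u w : σ) (hw : w ≠ u) (k : ℕ) :
    ((FF f u).coeff k).degreeOf w ≤ 0 := by
  refine degreeOf_build _ _ _ _ (fun m _ => (degreeOf_mono _ _ _).trans ?_) _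
  rw [Finsupp.single_eq_of_ne hw]

private lemma deg_FF' {σ : Type} (f : MvPolynomial (Fin 2) ℤ) (u : σ) (k : ℕ) :
    ((FF f u).coeff k).degreeOf u ≤ f.degreeOf 0 := by
  refine degreeOf_build _ _ _ _ (fun m hm => (degreeOf_mono _ _ _).trans ?_) _
  rw [Finsupp.single_eq_same]
  exact le_degreeOf 0 hm

private lemma deg_GG {σ : Type} (P : MvPolynomial σ ℤ) (v w : σ) (k : ℕ) :
    ((GG P v).coeff k).degreeOf w ≤ P.degreeOf w := by
  classical
  refine degreeOf_build _ _ _ _ (fun m hm => (degreeOf_mono _ _ _).trans ?_) _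
  refine le_trans ?_ (le_degreeOf w hm)
  by_cases h : w = v
  · subst h
    rw [Finsupp.erase_same]
    exact Nat.zero_le _
  · rw [Finsupp.erase_ne h]

private lemma deg_GG' {σ : Type} (P : MvPolynomial σ ℤ) (v : σ) (k : ℕ) :
    ((GG P v).coeff k).degreeOf v ≤ 0 := by
  classical
  refine degreeOf_build _ _ _ _ (fun m hm => (degreeOf_mono _ _ _).trans ?_) _
  rw [Finsupp.erase_same]

private lemma l1_FF {σ : Type} (f : MvPolynomial (Fin 2) ℤ) (u : σ) (N : ℕ) :
    ∑ k ∈ Finset.range N, l1 ((FF f u).coeff k) ≤ l1 f := by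
  refine (l1_build _ _ _ _).trans (le_of_eq ?_)
  simp only [l1_monomial]
  rfl

private lemma l1_GG {σ : Type} (P : MvPolynomial σ ℤ) (v : σ) (N : ℕ) :
    ∑ k ∈ Finset.range N, l1 ((GG P v).coeff k) ≤ l1 P := by
  refine (l1_build _ _ _ _).trans (le_of_eq ?_)
  simp only [l1_monomial]
  rfl

private lemma nat_FF {σ : Type} (f : MvPolynomial (Fin 2) ℤ) (u : σ) :
    (FF f u).natDegree ≤ f.degreeOf 1 :=
  natDegree_build _ _ _ fun _ hm => le_degreeOf 1 hm

private lemma nat_GG {σ : Type} (P : MvPolynomial σ ℤ) (v : σ) :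
    (GG P v).natDegree ≤ P.degreeOf v :=
  natDegree_build _ _ _ fun _ hm => le_degreeOf v hm

/-- the leading coefficient does not vanish at a transcendental number -/
private lemma lead_FF {σ : Type} (f : MvPolynomial (Fin 2) ℤ) (hf : 0 < f.degreeOf 1) (u : σ)
    (z : σ → ℂ) (hz : Transcendental ℤ (z u)) :
    (aeval z : MvPolynomial σ ℤ →ₐ[ℤ] ℂ) ((FF f u).coeff (f.degreeOf 1)) ≠ 0 := by
  classical
  set d := f.degreeOf 1 with hd
  set c : Polynomial ℤ := ∑ m ∈ f.support, if m 1 = d then Polynomial.monomial (m 0) (coeff m f)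
    else 0 with hc
  have h1 : (aeval z : MvPolynomial σ ℤ →ₐ[ℤ] ℂ) ((FF f u).coeff d) = Polynomial.aeval (z u) c := by
    unfold FF
    rw [coeff_build, map_sum, hc, map_sum]
    refine Finset.sum_congr rfl fun m _ => ?_
    split
    · rw [aeval_monomial, Polynomial.aeval_monomial, Finsupp.prod_single_index (by simp)]
    · simp
  rw [h1]
  have hne : c ≠ 0 := by
    have hsup : ∃ m ∈ f.support, m 1 = d := by
      have hf0 : f ≠ 0 := by
        rintro rfl
        simp at hd
        omega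
      obtain ⟨m, hm, hm'⟩ := Finset.exists_mem_eq_sup f.support
        (support_nonempty.2 hf0) (fun m => m 1)
      exact ⟨m, hm, by rw [hd, degreeOf_eq_sup]; exact hm'.symm⟩
    obtain ⟨m, hm, hmd⟩ := hsup
    intro h0
    have h2 : c.coeff (m 0) = coeff m f := by
      rw [hc, Polynomial.finsetSum_coeff, Finset.sum_eq_single m]
      · rw [if_pos hmd, Polynomial.coeff_monomial, if_pos rfl]
      · intro m' _ hne'
        split
        · rename_i hm1
          rw [Polynomial.coeff_monomial, if_neg]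
          intro h0'
          apply hne'
          ext i
          fin_cases i
          · exact h0'
          · exact hm1.trans hmd.symm
        · simp
      · intro h
        exact absurd hm h
    rw [h0, Polynomial.coeff_zero] at h2
    exact (mem_support_iff.1 hm) h2.symm
  exact fun h => hne ((transcendental_iff.1 hz) c h)

private lemma dvd_aux {σ A : Type} [DecidableEq σ] [CommRing A] (f : MvPolynomial (Fin 2) ℤ)
    (hf : 0 < f.degreeOf 1) (u v : σ) (P : MvPolynomial σ ℤ) (z : σ → A)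
    (hz : aeval ![z u, z v] f = 0) :
    aeval z P ∣ aeval z ((FF f u).resultant (GG P v) (f.degreeOf 1) (P.degreeOf v)) := by
  obtain ⟨p, q, -, -, h⟩ := Polynomial.exists_mul_add_mul_eq_C_resultant
    (FF f u) (GG P v) (nat_FF f u) (nat_GG P v) (Or.inl hf.ne')
  have h1 := congrArg (Polynomial.eval₂
    (aeval z : MvPolynomial σ ℤ →ₐ[ℤ] A).toRingHom (z v)) h
  rw [Polynomial.eval₂_add, Polynomial.eval₂_mul, Polynomial.eval₂_mul, Polynomial.eval₂_C,
    eval_FF, eval_GG, hz, zero_mul, zero_add, Function.update_eq_self] at h1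
  exact ⟨_, h1.symm⟩

private lemma common_root (F G : Polynomial ℂ) (d n : ℕ)
    (hlead : F.coeff d ≠ 0) (hFn : F.natDegree ≤ d)
    (hGn : G.natDegree ≤ n) (h1 : F.resultant G d n = 0) :
    ∃ y, F.eval y = 0 ∧ G.eval y = 0 := by
  have hFd : F.natDegree = d :=
    le_antisymm hFn (Polynomial.le_natDegree_of_ne_zero hlead)
  obtain ⟨k, hk⟩ := Nat.exists_eq_add_of_le hGn
  rw [hk, Polynomial.resultant_add_right_deg _ _ _ _ _ le_rfl] at h1
  have h2 : Polynomial.resultant F G = 0 := by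
    rcases mul_eq_zero.1 h1 with h | h
    · exact absurd h (pow_ne_zero _ hlead)
    · rw [hFd]
      exact h
  rw [Polynomial.resultant_eq_zero_iff] at h2
  by_contra hcon
  push Not at hcon
  apply h2.2
  rw [Polynomial.isCoprime_iff_aeval_ne_zero_of_isAlgClosed ℂ ℂ]
  intro a
  by_cases ha : F.eval a = 0
  · right
    simpa using hcon a ha
  · left
    simpa using ha

private lemma nonvan {σ : Type} [DecidableEq σ] (f : MvPolynomial (Fin 2) ℤ)
    (hf : 0 < f.degreeOf 1) (u v : σ) (P : MvPolynomial σ ℤ) (z : σ → ℂ)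
    (hz : Transcendental ℤ (z u))
    (hy : ∀ y : ℂ, aeval ![z u, y] f = 0 → aeval (Function.update z v y) P ≠ 0) :
    aeval z ((FF f u).resultant (GG P v) (f.degreeOf 1) (P.degreeOf v)) ≠ 0 := by
  intro h0
  have h1 : Polynomial.resultant
      ((FF f u).map (aeval z : MvPolynomial σ ℤ →ₐ[ℤ] ℂ).toRingHom)
      ((GG P v).map (aeval z : MvPolynomial σ ℤ →ₐ[ℤ] ℂ).toRingHom)
      (f.degreeOf 1) (P.degreeOf v) = 0 := by
    rw [Polynomial.resultant_map_map]
    exact h0
  obtain ⟨y, hy1, hy2⟩ := common_root _ _ _ _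
    (by
      rw [Polynomial.coeff_map]
      exact lead_FF f hf u z hz)
    (Polynomial.natDegree_map_le.trans (nat_FF f u))
    (Polynomial.natDegree_map_le.trans (nat_GG P v)) h1
  rw [Polynomial.eval_map, eval_FF] at hy1
  rw [Polynomial.eval_map, eval_GG] at hy2
  exact hy y hy1 hy2

private lemma degs {σ : Type} (f : MvPolynomial (Fin 2) ℤ) (u v : σ) (huv : v ≠ u)
    (P : MvPolynomial σ ℤ) :
    ((FF f u).resultant (GG P v) (f.degreeOf 1) (P.degreeOf v)).degreeOf v = 0 := by
  have := degreeOf_resultant (FF f u) (GG P v) (f.degreeOf 1) (P.degreeOf v) v 0 0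
    (deg_FF f u v huv) (deg_GG' P v)
  simpa using this

end Elim

/-- the resultant of `f (x i, y)` and `P (.., y, ..)` with respect to `y = y i` -/
theorem elim_one {ι : Type} [DecidableEq ι] (f : MvPolynomial (Fin 2) ℤ) (hf : 0 < f.degreeOf 1)
    (i : ι) (P : MvPolynomial (ι ⊕ ι) ℤ) :
    ∃ Q : MvPolynomial (ι ⊕ ι) ℤ,
      Q.degreeOf (Sum.inr i) = 0 ∧
      (∀ v, v ≠ Sum.inl i → Q.degreeOf v ≤ f.degreeOf 1 * P.degreeOf v) ∧
      Q.degreeOf (Sum.inl i) ≤
        f.degreeOf 1 * P.degreeOf (Sum.inl i) + f.degreeOf 0 * P.degreeOf (Sum.inr i) ∧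
      l1 Q ≤ l1 f ^ P.degreeOf (Sum.inr i) * l1 P ^ f.degreeOf 1 ∧
      (∀ (A : Type) [CommRing A] (z : ι ⊕ ι → A),
        aeval ![z (Sum.inl i), z (Sum.inr i)] f = 0 → aeval z P ∣ aeval z Q) ∧
      ∀ z : ι ⊕ ι → ℂ, Transcendental ℤ (z (Sum.inl i)) →
        (∀ y : ℂ, aeval ![z (Sum.inl i), y] f = 0 →
          aeval (Function.update z (Sum.inr i) y) P ≠ 0) →
        aeval z Q ≠ 0 := by
  have huv : (Sum.inr i : ι ⊕ ι) ≠ Sum.inl i := by simp
  refine ⟨(Elim.FF f (Sum.inl i)).resultant (Elim.GG P (Sum.inr i)) (f.degreeOf 1)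
    (P.degreeOf (Sum.inr i)), Elim.degs f _ _ huv P, ?_, ?_, ?_, ?_, ?_⟩
  · intro w hw
    have := degreeOf_resultant (Elim.FF f (Sum.inl i)) (Elim.GG P (Sum.inr i)) (f.degreeOf 1)
      (P.degreeOf (Sum.inr i)) w 0 (P.degreeOf w) (Elim.deg_FF f _ w hw) (Elim.deg_GG P _ w)
    simpa using this
  · have := degreeOf_resultant (Elim.FF f (Sum.inl i)) (Elim.GG P (Sum.inr i)) (f.degreeOf 1)
      (P.degreeOf (Sum.inr i)) (Sum.inl i) (f.degreeOf 0) (P.degreeOf (Sum.inl i))
      (Elim.deg_FF' f _) (Elim.deg_GG P _ _)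
    refine this.trans (le_of_eq ?_)
    ring
  · refine (l1_resultant (Elim.FF f (Sum.inl i)) (Elim.GG P (Sum.inr i)) (f.degreeOf 1)
      (P.degreeOf (Sum.inr i))).trans ?_
    have h1 := Elim.l1_FF f (Sum.inl i : ι ⊕ ι) (f.degreeOf 1 + 1)
    have h2 := Elim.l1_GG P (Sum.inr i) (P.degreeOf (Sum.inr i) + 1)
    refine mul_le_mul (pow_le_pow_left₀ (Finset.sum_nonneg fun _ _ => l1_nonneg _) h1 _)
      (pow_le_pow_left₀ (Finset.sum_nonneg fun _ _ => l1_nonneg _) h2 _)
      (pow_nonneg (Finset.sum_nonneg fun _ _ => l1_nonneg _) _) (pow_nonneg (l1_nonneg _) _)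
  · intro A _ z hz
    exact Elim.dvd_aux f hf _ _ P z hz
  · intro z hz hy
    exact Elim.nonvan f hf _ _ P z hz hy

end Pool.Agent.PN
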